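import Pool.Agent.Lib_helper80.SL.Notions2

/-! # Curve fibrations over tori (MP_45e720_ag): definitions for the statement

The complex manifolds are as in `Pool.Agent.Lib_helper82.BR.Statement`: charted spaces over a
finite-dimensional complex normed space `E` with analytic transition maps. Holomorphic maps to
complex tori are defined in `Pool.Agent.Lib_helper80.SL.Notions2`. -/

set_option autoImplicit false

open Filter Topology Metric Set
open scoped Manifold ContDiff

namespace Pool.Agent.CurveFibres

section

variable (E : Type) {X : Type} [NormedAddCommGroup E] [NormedSpace ℂ E] [TopologicalSpace X]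
  [ChartedSpace E X]

/-- Near its point `x` the set `Z` is a one-dimensional complex submanifold of `X`: the
neighbourhoods of `x` in `Z` are the sets which contain the image of a neighbourhood of the origin
under a holomorphic immersion `γ` (defined near the origin of the plane, `γ 0 = x`). -/
def IsCurveAt (Z : Set X) (x : X) : Prop :=
  ∃ γ : ℂ → X, γ 0 = x ∧ (∀ᶠ t in 𝓝 (0 : ℂ), MDifferentiableAt 𝓘(ℂ, ℂ) 𝓘(ℂ, E) γ t) ∧
    BrodyRigid.velocity (E := E) γ 0 ≠ ⟨γ 0, (0 : E)⟩ ∧ Filter.map γ (𝓝 0) = 𝓝[Z] x

/-- `Z` is a closed set of complex dimension at most one: outside of a finite set it is a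
one-dimensional complex submanifold of `X`. (If `X` is compact, then these are the closed analytic
subsets of dimension at most one.) -/
def IsCurveSet (Z : Set X) : Prop :=
  IsClosed Z ∧ ∃ S : Set X, S.Finite ∧ ∀ x ∈ Z \ S, IsCurveAt E Z x

/-- all fibres of the map `φ` have complex dimension at most one -/
def HasCurveFibres {T : Type} (φ : X → T) : Prop :=
  ∀ x : X, IsCurveSet E {y | φ y = φ x}

variable (X) [IsManifold 𝓘(ℂ, E) ω X]

omit [IsManifold 𝓘(ℂ, E) ω X] in
/-- `X` has a holomorphic map `φ` to a complex torus `W / Γ` (more generally `Γ` is a discrete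
subgroup of the finite-dimensional complex vector space `W`) all of whose fibres have dimension at
most one. -/
def FibredInCurves : Prop :=
  ∃ (W : Type) (_ : NormedAddCommGroup W) (_ : NormedSpace ℂ W) (_ : FiniteDimensional ℂ W)
    (Γ : Submodule ℤ W) (_ : DiscreteTopology Γ) (φ : X → W ⧸ Γ),
    StrongLang.IsTorusValued E Γ φ ∧ HasCurveFibres E φ

/-- Some finite unramified covering `X'` of `X` (for instance `X` itself) is fibred in curves over a
complex torus. (A holomorphic map `π : X' → X` with injective derivatives between compact connected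
manifolds of the same dimension is a finite unramified covering.) -/
def VirtuallyFibredInCurves : Prop :=
  ∃ (X' : Type) (_ : TopologicalSpace X') (_ : CompactSpace X') (_ : T2Space X')
    (_ : ConnectedSpace X') (_ : ChartedSpace E X') (_ : IsManifold 𝓘(ℂ, E) ω X') (π : X' → X),
    MDifferentiable 𝓘(ℂ, E) 𝓘(ℂ, E) π ∧
      (∀ (x' : X') (v : E), (SS.dirDeriv π x' v : E) = 0 → v = 0) ∧ FibredInCurves E X'

end

end Pool.Agent.CurveFibres
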