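import Pool.Agent.Lib_helper58.CF.E
import Pool.Agent.Lib_helper80.IS.Irr

/-! # Curve fibrations over tori (MP_45e720_ag): assembly -/

set_option autoImplicit false
set_option linter.unusedVariables false
set_option linter.unusedSectionVars false

open Filter Topology Metric Set
open scoped Manifold ContDiff

namespace Pool.Agent.CF

open Pool.Agent.CurveFibres

section

variable {E X : Type} [NormedAddCommGroup E] [NormedSpace ℂ E] [FiniteDimensional ℂ E]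

/-- null Brody curves are contained in rational or elliptic curves in the fibres -/
theorem null_fibre [t : TopologicalSpace X] [CompactSpace X] [T2Space X] [ChartedSpace E X]
    [IsManifold 𝓘(ℂ, E) ω X] {n : ℕ} {ι : X → IS.PP n}
    (hι : ∀ x, ∃ g : X → Fin (n + 1) → ℂ, SS.IsImmersiveLift E X ι g x)
    {W : Type} [NormedAddCommGroup W] [NormedSpace ℂ W] [FiniteDimensional ℂ W]
    {Γ : Submodule ℤ W} [DiscreteTopology Γ] {φ : X → W ⧸ Γ} (hφ : StrongLang.IsTorusValued E Γ φ)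
    (hF : HasCurveFibres E φ) {h : ℂ → X} (hh : BrodyRigid.IsBrodyCurve (E := E) h)
    (hN : StrongLang.IsNull E h) (hne : ∃ z z', h z ≠ h z') :
    ∃ g : ℂ → X, MDifferentiable 𝓘(ℂ, ℂ) 𝓘(ℂ, E) g ∧ BrodyRigid.DoublyPeriodic g ∧
      (∃ z z', g z ≠ g z') ∧ range h ⊆ range g ∧ ∀ z z', φ (g z) = φ (g z') := by
  have h1 := hN.2.2 W Γ φ hφ
  obtain ⟨m, hm, -⟩ := MBS.exists_metric (E := E) (X := X)
  subst hm
  obtain ⟨g, h2, h3, h4, h5⟩ := curveSet_torus hι (hF (h 0)) hh hne (fun z => h1 z 0)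
  exact ⟨g, h2, h3, h4, h5, torus_range hφ h2 h3 hh.1.continuous hne h5 h1⟩

/-- the strong form -/
theorem strong_form [TopologicalSpace X] [CompactSpace X] [T2Space X] [ChartedSpace E X]
    [IsManifold 𝓘(ℂ, E) ω X] (hX : BrodyRigid.PlaneAmple E X) {n : ℕ} {ι : X → IS.PP n}
    (hι : ∀ x, ∃ g : X → Fin (n + 1) → ℂ, SS.IsImmersiveLift E X ι g x)
    {W : Type} [NormedAddCommGroup W] [NormedSpace ℂ W] [FiniteDimensional ℂ W]
    {Γ : Submodule ℤ W} [DiscreteTopology Γ] {φ : X → W ⧸ Γ} (hφ : StrongLang.IsTorusValued E Γ φ)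
    (hF : HasCurveFibres E φ) :
    ∃ 𝒢 : Set (ℂ → X), (∀ g ∈ 𝒢, StrongLang.IsTorusImmersion E g) ∧
      (∀ f : ℂ → X, MDifferentiable 𝓘(ℂ, ℂ) 𝓘(ℂ, E) f → (∃ z z', f z ≠ f z') →
        (∃ g ∈ 𝒢, ∃ P : ℂ → ℂ, Differentiable ℂ P ∧ ∀ z, f z = g (P z)) ∨
        ∃ h g : ℂ → X, StrongLang.IsReparamLimit f h ∧ (∃ z z', h z ≠ h z') ∧
          range h ⊆ range g ∧ MDifferentiable 𝓘(ℂ, ℂ) 𝓘(ℂ, E) g ∧ BrodyRigid.DoublyPeriodic g ∧
          ∀ z z', φ (g z) = φ (g z')) ∧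
      ((∀ g : ℂ → X, MDifferentiable 𝓘(ℂ, ℂ) 𝓘(ℂ, E) g → BrodyRigid.DoublyPeriodic g →
          (∀ z z', φ (g z) = φ (g z')) → ∀ z z', g z = g z') →
        𝒢.Finite ∧
        (∀ x : X, List.TFAE [StrongLang.HyperbolicAt E x, StrongLang.EntireConstantAt E x,
          StrongLang.TorusConstantAt E x, ∀ g ∈ 𝒢, x ∉ range g])) := by
  obtain ⟨𝒢, h1, h2, h3⟩ := SL.main_thm hX
  refine ⟨𝒢, h1, ?_, fun h4 => ?_⟩
  · intro f hf hne
    rcases h2 f hf hne with h4 | ⟨h, h4, h5, h6, h7⟩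
    · exact Or.inl h4
    · obtain ⟨g, h8, h9, h10, h11, h12⟩ := null_fibre hι hφ hF h4 h5 h6
      exact Or.inr ⟨h, g, h7, h6, h11, h8, h9, h12⟩
  · have h5 := h3 (by
      intro h hh hN
      by_contra hno
      push Not at hno
      obtain ⟨g, h8, h9, ⟨z, z', h10⟩, -, h12⟩ := null_fibre hι hφ hF hh hN hno
      exact h10 (h4 g h8 h9 h12 z z'))
    exact ⟨h5.1, h5.2.1⟩

/-- hyperbolicity without elliptic curves -/
theorem hyp_of_fibred [TopologicalSpace X] [CompactSpace X] [T2Space X] [ChartedSpace E X]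
    [IsManifold 𝓘(ℂ, E) ω X] (hX : BrodyRigid.PlaneAmple E X) {n : ℕ} {ι : X → IS.PP n}
    (hι : ∀ x, ∃ g : X → Fin (n + 1) → ℂ, SS.IsImmersiveLift E X ι g x)
    (hF : FibredInCurves E X) (hT : BrodyRigid.NoEllipticMaps E X) : SS.BrodyHyperbolic E X := by
  obtain ⟨W, i1, i2, i3, Γ, i4, φ, hφ, hF⟩ := hF
  obtain ⟨𝒢, h1, -, h3⟩ := SL.main_thm hX
  have h4 := (h3 (by
    intro h hh hN
    by_contra hno
    push Not at hno
    obtain ⟨g, h8, h9, ⟨z, z', h10⟩, -, -⟩ := null_fibre hι hφ hF hh hN hno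
    exact h10 (hT g h8 h9 z z'))).2.2
  refine (h4.out 0 1).1 ?_
  rw [eq_empty_iff_forall_notMem]
  intro g hg
  have h6 : ∃ z z', g z ≠ g z' := by
    by_contra hno
    push Not at hno
    refine (h1 g hg).2.2 0 ?_
    have : g = fun _ => g 0 := funext fun z => hno z 0
    rw [this]
    simp [BrodyRigid.velocity, tangentMap]
    rfl
  obtain ⟨z, z', hz⟩ := h6
  exact hz (hT g (h1 g hg).1 (h1 g hg).2.1 z z')

/-- immersions of unramified coverings -/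
theorem etale_immersion {X' : Type} [TopologicalSpace X] [ChartedSpace E X]
    [IsManifold 𝓘(ℂ, E) ω X] [TopologicalSpace X'] [ChartedSpace E X'] [IsManifold 𝓘(ℂ, E) ω X']
    {π : X' → X} (hπ : MDifferentiable 𝓘(ℂ, E) 𝓘(ℂ, E) π)
    (hi : ∀ (x' : X') (v : E), (SS.dirDeriv π x' v : E) = 0 → v = 0) {n : ℕ} {ι : X → IS.PP n}
    (hι : ∀ x, ∃ g : X → Fin (n + 1) → ℂ, SS.IsImmersiveLift E X ι g x) :
    ∀ x', ∃ g : X' → Fin (n + 1) → ℂ, SS.IsImmersiveLift E X' (fun x' => ι (π x')) g x' := by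
  intro x'
  obtain ⟨g, h1, h2, h3⟩ := hι (π x')
  have hc : ContinuousAt π x' := (hπ x').continuousAt
  refine ⟨fun y => g (π y), ?_, ?_, ?_⟩
  · filter_upwards [hc.eventually h1] with y hy
    exact hy.comp y (hπ y)
  · exact hc.eventually h2
  · intro u a hu
    refine hi x' u (h3 _ a ?_)
    rw [← hu]
    have h4 : mfderiv 𝓘(ℂ, E) 𝓘(ℂ, Fin (n + 1) → ℂ) (g ∘ π) x' =
        (mfderiv 𝓘(ℂ, E) 𝓘(ℂ, Fin (n + 1) → ℂ) g (π x')).comp (mfderiv 𝓘(ℂ, E) 𝓘(ℂ, E) π x') :=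
      mfderiv_comp x' h1.self_of_nhds (hπ x')
    exact (DFunLike.congr_fun h4 u).symm

/-- Lang's question -/
theorem fibred_main [TopologicalSpace X] [CompactSpace X] [T2Space X]
    [ConnectedSpace X] [ChartedSpace E X] [IsManifold 𝓘(ℂ, E) ω X]
    (hX : BrodyRigid.PlaneAmple E X) {n : ℕ} {ι : X → IS.PP n}
    (hι : ∀ x, ∃ g : X → Fin (n + 1) → ℂ, SS.IsImmersiveLift E X ι g x)
    (hI : VirtuallyFibredInCurves E X) :
    List.TFAE [BrodyRigid.NoEllipticMaps E X, SS.NoTorusMaps E X, SS.BrodyHyperbolic E X,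
      ∀ x : X, StrongLang.HyperbolicAt E x] := by
  obtain ⟨𝒢, -, -, h3⟩ := SL.main_thm hX
  have key : SS.BrodyHyperbolic E X → (SS.NoTorusMaps E X ∧ ∀ x : X, StrongLang.HyperbolicAt E x) := by
    intro hb
    have h4 := (h3 (fun h hh _ => hb h hh.1)).2.2
    exact ⟨(h4.out 1 2).1 hb, (h4.out 1 3).1 hb⟩
  tfae_have 3 → 4 := fun h => (key h).2
  tfae_have 4 → 3 := IS.brody_of_hyp'
  tfae_have 3 → 2 := fun h => (key h).1
  tfae_have 2 → 1 := IS.brody_torus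
  tfae_have 1 → 3 := by
    intro hT
    obtain ⟨X', i1, i2, i3, i4, i5, i6, π, h5, h6, h7⟩ := hI
    exact IS.etale_entire h5 h6 (hyp_of_fibred (IS.etale_planeAmple h5 h6 hX)
      (etale_immersion h5 h6 hι) h7 (IS.etale_elliptic h5 h6 hT))
  tfae_finish

end

end Pool.Agent.CF
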