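import Pool.Agent.Lib_helper80.IS.L.S5
import Pool.Agent.Lib_helper80.IS.L.R3

/-! # Curve fibrations (MP_45e720_ag), block A: curve sets and the maximum principle -/

set_option autoImplicit false
set_option linter.unusedVariables false
set_option linter.unusedSectionVars false

open Filter Topology Metric Set

namespace Pool.Agent.CF

open Pool.Agent.IS

section top

variable {X : Type} [TopologicalSpace X]

/-- local conditions on a preconnected set -/
theorem conn_within {C : Set X} (hC : IsPreconnected C) {P : X → Prop}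
    (hloc : ∀ x ∈ C, (∃ᶠ x' in 𝓝[C] x, ∀ᶠ x'' in 𝓝[C] x', P x'') → ∀ᶠ x' in 𝓝[C] x, P x')
    (h0 : ∃ x ∈ C, ∀ᶠ x' in 𝓝[C] x, P x') : ∀ x ∈ C, P x := by
  have : PreconnectedSpace C := Subtype.preconnectedSpace hC
  have h1 : ∀ (y : C) (Q : X → Prop), (∀ᶠ x' in 𝓝[C] (y : X), Q x') ↔
      ∀ᶠ y' : C in 𝓝 y, Q (y' : X) := by
    intro y Q
    rw [nhdsWithin_eq_map_subtype_coe y.2, eventually_map]
  have h1' : ∀ (y : C) (Q : X → Prop), (∃ᶠ x' in 𝓝[C] (y : X), Q x') ↔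
      ∃ᶠ y' : C in 𝓝 y, Q (y' : X) := by
    intro y Q
    rw [nhdsWithin_eq_map_subtype_coe y.2, frequently_map]
  have h2 := s5_conn (Y := C) (P := fun y => P y) (fun y hy => by
    rw [← h1]
    refine hloc y y.2 ?_
    rw [h1']
    refine hy.mono fun y' hy' => ?_
    rw [h1]
    exact hy') (by
    obtain ⟨x, hx, h⟩ := h0
    exact ⟨⟨x, hx⟩, (h1 ⟨x, hx⟩ P).1 h⟩)
  exact fun x hx => h2 ⟨x, hx⟩

/-- `γ` is a parametrisation of `Z` near `x` -/
structure Par (Z : Set X) (x : X) (γ : ℂ → X) : Prop where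
  zero : γ 0 = x
  cont : ∀ᶠ t in 𝓝 (0 : ℂ), ContinuousAt γ t
  map : Filter.map γ (𝓝 0) = 𝓝[Z] x

theorem Par.of_nhds {Z C : Set X} {x : X} {γ : ℂ → X} (h : Par Z x γ) (hC : 𝓝[C] x = 𝓝[Z] x) :
    Par C x γ := ⟨h.zero, h.cont, h.map.trans hC.symm⟩

/-- a connected piece of the parametrised set -/
theorem Par.disc {Z : Set X} {x : X} {γ : ℂ → X} (h : Par Z x γ) {Y : Set X} (hY : Y ∈ 𝓝[Z] x) :
    ∃ r > 0, IsPreconnected (γ '' ball 0 r) ∧ γ '' ball 0 r ⊆ Y ∧ γ '' ball 0 r ∈ 𝓝[Z] x ∧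
      x ∈ γ '' ball 0 r := by
  have h1 : ∀ᶠ t in 𝓝 (0 : ℂ), γ t ∈ Y := by
    have h2 : Y ∈ Filter.map γ (𝓝 0) := h.map ▸ hY
    exact h2
  obtain ⟨r, hr, hb⟩ := Metric.eventually_nhds_iff_ball.mp (h.cont.and h1)
  refine ⟨r, hr, ?_, ?_, ?_, ?_⟩
  · refine (convex_ball (0 : ℂ) r).isPreconnected.image γ fun t ht => ?_
    exact (hb t ht).1.continuousWithinAt
  · rintro _ ⟨t, ht, rfl⟩
    exact (hb t ht).2
  · rw [← h.map]
    exact image_mem_map (ball_mem_nhds 0 hr)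
  · exact ⟨0, mem_ball_self hr, h.zero⟩

/-- the component of `Z \ S` -/
theorem component {Z S : Set X} (hZ : IsClosed Z) (hS : IsClosed S)
    (hp : ∀ x ∈ Z \ S, ∃ γ, Par Z x γ) {x₀ : X} :
    (∀ x ∈ connectedComponentIn (Z \ S) x₀, 𝓝[connectedComponentIn (Z \ S) x₀] x = 𝓝[Z] x) ∧
      closure (connectedComponentIn (Z \ S) x₀) ⊆ connectedComponentIn (Z \ S) x₀ ∪ S := by
  set C := connectedComponentIn (Z \ S) x₀ with hC
  have hCs : C ⊆ Z \ S := connectedComponentIn_subset _ _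
  have hns : ∀ x ∈ Z \ S, Z \ S ∈ 𝓝[Z] x := fun x hx =>
    inter_mem self_mem_nhdsWithin (mem_nhdsWithin_of_mem_nhds (hS.isOpen_compl.mem_nhds hx.2))
  constructor
  · intro x hx
    obtain ⟨γ, hγ⟩ := hp x (hCs hx)
    obtain ⟨r, hr, h1, h2, h3, h4⟩ := hγ.disc (hns x (hCs hx))
    have h5 : γ '' ball 0 r ⊆ C := by
      have h6 := h1.subset_connectedComponentIn h4 h2
      rwa [hC, connectedComponentIn_eq hx]
    refine le_antisymm (nhdsWithin_mono x (hCs.trans sdiff_subset)) (nhdsWithin_le_of_mem ?_)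
    exact mem_of_superset h3 h5
  · intro y hy
    by_cases hyS : y ∈ S
    · exact Or.inr hyS
    · left
      have hyZ : y ∈ Z := closure_minimal (hCs.trans sdiff_subset) hZ hy
      obtain ⟨γ, hγ⟩ := hp y ⟨hyZ, hyS⟩
      obtain ⟨r, hr, h1, h2, h3, h4⟩ := hγ.disc (hns y ⟨hyZ, hyS⟩)
      obtain ⟨V, hV, hVo⟩ := mem_nhdsWithin_iff_exists_mem_nhds_inter.1 h3
      obtain ⟨x, hxV, hxC⟩ := mem_closure_iff_nhds.1 hy V hV
      have hx1 : x ∈ γ '' ball 0 r := hVo ⟨hxV, (hCs hxC).1⟩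
      have h6 := h1.subset_connectedComponentIn hx1 h2
      rw [hC, connectedComponentIn_eq hxC]
      exact h6 h4

end top

section maxp

variable {X : Type} [TopologicalSpace X]

/-- the maximum principle -/
theorem max_principle {Z C : Set X} (hZ : IsCompact Z) (hCZ : C ⊆ Z) (hC : IsPreconnected C)
    {w : X → ℂ} (hw : ContinuousOn w Z)
    (hloc : ∀ x ∈ Z, w x ≠ 0 → x ∈ C ∧ ∃ γ, Par C x γ ∧ AnalyticAt ℂ (fun t => w (γ t)) 0)
    {y₀ : X} (hy₀ : y₀ ∈ C) (hw0 : w y₀ = 0) : ∀ x ∈ Z, w x = 0 := by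
  obtain ⟨x₁, hx₁, hmax⟩ := hZ.exists_isMaxOn ⟨y₀, hCZ hy₀⟩ hw.norm
  by_cases h1 : w x₁ = 0
  · intro x hx
    have h2 : ‖w x‖ ≤ ‖w x₁‖ := hmax hx
    rw [h1, norm_zero] at h2
    exact norm_le_zero_iff.1 h2
  · exfalso
    -- near a point with the value `w x₁` the function is constant
    have key : ∀ x ∈ C, w x = w x₁ → ∀ᶠ x' in 𝓝[C] x, w x' = w x₁ := by
      intro x hx hxe
      obtain ⟨-, γ, hγ, han⟩ := hloc x (hCZ hx) (hxe ▸ h1)
      have h2 : IsLocalMax (norm ∘ fun t => w (γ t)) 0 := by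
        have h3 : ∀ᶠ t in 𝓝 (0 : ℂ), γ t ∈ C := by
          have h4 : C ∈ Filter.map γ (𝓝 0) := hγ.map ▸ self_mem_nhdsWithin
          exact h4
        filter_upwards [h3] with t ht
        show ‖w (γ t)‖ ≤ ‖w (γ 0)‖
        rw [hγ.zero, hxe]
        exact hmax (hCZ ht)
      have h3 := Complex.eventually_eq_of_isLocalMax_norm
        (han.eventually_analyticAt.mono fun t ht => ht.differentiableAt) h2
      rw [← hγ.map, eventually_map]
      filter_upwards [h3] with t ht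
      rw [ht, hγ.zero, hxe]
    have hx₁C : x₁ ∈ C := (hloc x₁ hx₁ h1).1
    have h2 := conn_within hC (P := fun x => w x = w x₁) (fun x hx hf => by
      refine key x hx ?_
      -- by continuity
      have h3 : ∃ᶠ x' in 𝓝[C] x, w x' = w x₁ := by
        have h4 : ∀ᶠ x' in 𝓝[C] x, x' ∈ C := self_mem_nhdsWithin
        refine (hf.and_eventually h4).mono fun x' hx' => ?_
        exact hx'.1.self_of_nhdsWithin hx'.2
      have h5 : Tendsto w (𝓝[C] x) (𝓝 (w x)) := (hw x (hCZ hx)).mono_left (nhdsWithin_mono x hCZ)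
      by_contra hne
      have h6 : ∀ᶠ x' in 𝓝[C] x, w x' ≠ w x₁ := h5.eventually_ne hne
      exact h3 h6) ⟨x₁, hx₁C, key x₁ hx₁C rfl⟩ y₀ hy₀
    simp only [hw0] at h2
    exact h1 h2.symm

end maxp

end Pool.Agent.CF
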