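import Pool.Agent.Lib_helper58.CF.A
import Pool.Agent.Lib_helper66.TOR.B

/-! # Curve fibrations (MP_45e720_ag), block B: quotients of homogeneous functions -/

set_option autoImplicit false
set_option linter.unusedVariables false
set_option linter.unusedSectionVars false

open Filter Topology Metric Set

namespace Pool.Agent.CF

open Pool.Agent.IS Pool.Agent.BR Pool.Agent.MBS Pool.Agent.SL

/-- entire homogeneous functions of degree `D` -/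
structure Hom {n : ℕ} (D : ℕ) (f : (Fin (n + 1) → ℂ) → ℂ) : Prop where
  an : ∀ v, AnalyticAt ℂ f v
  smul : ∀ (a : ℂ) (v : Fin (n + 1) → ℂ), f (a • v) = a ^ D * f v

/-- the quotient `f / s ^ D` as a function on `X` -/
noncomputable def quo {n : ℕ} {X : Type} (ι : X → PP n) (f s : (Fin (n + 1) → ℂ) → ℂ) (D : ℕ)
    (x : X) : ℂ :=
  f (ι x).rep / (s (ι x).rep) ^ D

section hom

variable {n : ℕ} {D : ℕ} {f s : (Fin (n + 1) → ℂ) → ℂ}

theorem Hom.rep_zero (hf : Hom D f) {y : PP n} {v : Fin (n + 1) → ℂ} {hv : v ≠ 0}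
    (h : y = Projectivization.mk ℂ v hv) : f y.rep = 0 ↔ f v = 0 := by
  obtain ⟨a, ha, he⟩ := s5_rep h
  rw [he, hf.smul, mul_eq_zero]
  simp [ha]

theorem quo_mk (hf : Hom D f) (hs : Hom 1 s) {X : Type} {ι : X → PP n} {x : X}
    {v : Fin (n + 1) → ℂ} {hv : v ≠ 0} (h : ι x = Projectivization.mk ℂ v hv) :
    quo ι f s D x = f v / (s v) ^ D := by
  obtain ⟨a, ha, he⟩ := s5_rep h
  rw [quo, he, hf.smul, hs.smul, pow_one, mul_pow, mul_div_mul_left _ _ (pow_ne_zero _ ha)]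

end hom

section charts

variable {E X : Type} [NormedAddCommGroup E] [NormedSpace ℂ E] [FiniteDimensional ℂ E]
  [MetricSpace X] {A : Cha E X} {n : ℕ} {ι : X → PP n} {D : ℕ} {f s : (Fin (n + 1) → ℂ) → ℂ}

/-- the zeros of a homogeneous function are closed -/
theorem lift_cont (hι : Plift A n ι) (x : X) : ∃ G : X → Fin (n + 1) → ℂ, ContinuousAt G x ∧
    ∀ᶠ x' in 𝓝 x, ∃ h : G x' ≠ 0, ι x' = Projectivization.mk ℂ (G x') h := by
  obtain ⟨i, K, U, hUo, hxU, hUs, hmk, han⟩ := s5_nhd hι x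
  exact ⟨K, s5_cont hUo hxU hUs han, eventually_of_mem (hUo.mem_nhds hxU) hmk⟩

theorem zero_closed (hι : Plift A n ι) (hs : Hom D s) {x : X}
    (h : ∃ᶠ x' in 𝓝 x, s (ι x').rep = 0) : s (ι x).rep = 0 := by
  obtain ⟨G, hG, hmk⟩ := lift_cont hι x
  obtain ⟨h0, hx⟩ := hmk.self_of_nhds
  rw [hs.rep_zero hx]
  by_contra hne
  have h1 : ∀ᶠ x' in 𝓝 x, s (G x') ≠ 0 :=
    ((hs.an (G x)).continuousAt.comp (f := G) hG).eventually_ne hne
  refine h ?_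
  filter_upwards [h1, hmk] with x' h2 h3
  obtain ⟨h4, h5⟩ := h3
  rw [hs.rep_zero h5]
  exact h2

theorem quo_cont (hι : Plift A n ι) (hf : Hom D f) (hs : Hom 1 s) {x : X}
    (hx : s (ι x).rep ≠ 0) : ContinuousAt (quo ι f s D) x := by
  obtain ⟨G, hG, hmk⟩ := lift_cont hι x
  obtain ⟨h0, hx0⟩ := hmk.self_of_nhds
  have h1 : s (G x) ≠ 0 := fun h => hx ((hs.rep_zero hx0).2 h)
  have h2 : ContinuousAt (fun x' => f (G x') / (s (G x')) ^ D) x :=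
    ((hf.an (G x)).continuousAt.comp (f := G) hG).div
      (((hs.an (G x)).continuousAt.comp (f := G) hG).pow D) (pow_ne_zero _ h1)
  refine h2.congr ?_
  filter_upwards [hmk] with x' h3
  obtain ⟨h4, h5⟩ := h3
  exact (quo_mk hf hs h5).symm

/-- lift along a holomorphic curve -/
theorem lift_curve (hι : Plift A n ι) {γ : ℂ → X} {t₀ : ℂ} (hγ : A.HolAt γ t₀) :
    ∃ F : ℂ → Fin (n + 1) → ℂ, ∀ᶠ t in 𝓝 t₀, AnalyticAt ℂ F t ∧
      ∃ h : F t ≠ 0, ι (γ t) = Projectivization.mk ℂ (F t) h :=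
  holP_comp hι hγ

theorem hom_comp (hf : Hom D f) {F : ℂ → Fin (n + 1) → ℂ} {t : ℂ} (hF : AnalyticAt ℂ F t) :
    AnalyticAt ℂ (fun t => f (F t)) t := AnalyticAt.comp (g := f) (hf.an _) hF

theorem quo_an (hι : Plift A n ι) (hf : Hom D f) (hs : Hom 1 s) {γ : ℂ → X} {t₀ : ℂ}
    (hγ : A.HolAt γ t₀) (hx : s (ι (γ t₀)).rep ≠ 0) :
    AnalyticAt ℂ (fun t => quo ι f s D (γ t)) t₀ := by
  obtain ⟨F, hF⟩ := lift_curve hι hγ
  obtain ⟨hF0, h0, hx0⟩ := hF.self_of_nhds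
  have h1 : s (F t₀) ≠ 0 := fun h => hx ((hs.rep_zero hx0).2 h)
  have h2 : AnalyticAt ℂ (fun t => f (F t) / (s (F t)) ^ D) t₀ :=
    (hom_comp hf hF0).div ((hom_comp hs hF0).pow D) (pow_ne_zero _ h1)
  refine h2.congr ?_
  filter_upwards [hF] with t h3
  obtain ⟨-, h4, h5⟩ := h3
  exact (quo_mk hf hs h5).symm

/-- identity theorem near a point -/
theorem zero_loc (hι : Plift A n ι) (hs : Hom D s) {C : Set X} {x : X} {γ : ℂ → X}
    (hγ : Par C x γ) (hh : A.HolAt γ 0)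
    (hf : ∃ᶠ x' in 𝓝[C] x, x' ≠ x ∧ s (ι x').rep = 0) : ∀ᶠ x' in 𝓝[C] x, s (ι x').rep = 0 := by
  obtain ⟨F, hF⟩ := lift_curve hι hh
  obtain ⟨hF0, h0, hx0⟩ := hF.self_of_nhds
  have h1 : ∃ᶠ t in 𝓝[≠] (0 : ℂ), s (F t) = 0 := by
    rw [← hγ.map, frequently_map] at hf
    rw [frequently_nhdsWithin_iff]
    refine (hf.and_eventually hF).mono fun t ht => ?_
    obtain ⟨⟨h2, h3⟩, -, h4, h5⟩ := ht
    refine ⟨(hs.rep_zero h5).1 h3, fun h6 => h2 ?_⟩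
    have h7 : t = 0 := h6
    rw [h7, hγ.zero]
  have h2 := ((hom_comp hs hF0).frequently_zero_iff_eventually_zero).1 h1
  rw [← hγ.map, eventually_map]
  filter_upwards [h2, hF] with t h3 h4
  obtain ⟨-, h5, h6⟩ := h4
  exact (hs.rep_zero h6).2 h3

/-- finitely many zeros -/
theorem finite_zeros (hι : Plift A n ι) (hs : Hom D s) {Z C : Set X} (hZ : IsCompact Z)
    (hCZ : C ⊆ Z) (hC : IsPreconnected C)
    (hpar : ∀ x ∈ C, ∃ γ, Par C x γ ∧ A.HolAt γ 0)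
    (hZC : ∀ x ∈ Z, x ∉ C → s (ι x).rep ≠ 0) {y₁ : X} (hy₁ : y₁ ∈ C) (hsy : s (ι y₁).rep ≠ 0) :
    {x | x ∈ C ∧ s (ι x).rep = 0}.Finite := by
  by_contra hinf
  obtain ⟨y, hyZ, hacc⟩ := Set.Infinite.exists_accPt_of_subset_isCompact (K := Z) hinf hZ
    (fun x hx => hCZ hx.1)
  have hfr : ∃ᶠ x in 𝓝 y, x ≠ y ∧ x ∈ {x | x ∈ C ∧ s (ι x).rep = 0} := accPt_iff_frequently.1 hacc
  have hys : s (ι y).rep = 0 := zero_closed hι hs (hfr.mono fun x hx => hx.2.2)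
  have hyC : y ∈ C := by
    by_contra hyC
    exact hZC y hyZ hyC hys
  have hloc : ∀ x ∈ C, (∃ᶠ x' in 𝓝[C] x, x' ≠ x ∧ s (ι x').rep = 0) →
      ∀ᶠ x' in 𝓝[C] x, s (ι x').rep = 0 := by
    intro x hx hf
    obtain ⟨γ, hγ, hh⟩ := hpar x hx
    exact zero_loc hι hs hγ hh hf
  have h1 : ∀ᶠ x' in 𝓝[C] y, s (ι x').rep = 0 := by
    refine hloc y hyC ?_
    rw [frequently_nhdsWithin_iff]
    exact hfr.mono fun x hx => ⟨⟨hx.1, hx.2.2⟩, hx.2.1⟩
  refine hsy (conn_within hC (P := fun x => s (ι x).rep = 0) ?_ ⟨y, hyC, h1⟩ y₁ hy₁)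
  intro x hx hf
  by_cases h2 : ∀ᶠ x' in 𝓝[C] x, s (ι x').rep = 0
  · exact h2
  · refine hloc x hx ?_
    have h3 : ∀ᶠ x' in 𝓝[C] x, x' ∈ C := self_mem_nhdsWithin
    refine (hf.and_eventually h3).mono fun x' hx' => ?_
    refine ⟨fun h4 => h2 (h4 ▸ hx'.1), hx'.1.self_of_nhdsWithin hx'.2⟩

/-- the quotient tends to zero at a zero of the denominator, if the numerator vanishes to a high
order -/
theorem quo_tendsto (hf : Hom D f) (hs : Hom 1 s) (hD : 0 < D) {C : Set X} {x : X}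
    {γ : ℂ → X} (hγ : Par C x γ) {F : ℂ → Fin (n + 1) → ℂ}
    (hF : ∀ᶠ t in 𝓝 (0 : ℂ), AnalyticAt ℂ F t ∧
      ∃ h : F t ≠ 0, ι (γ t) = Projectivization.mk ℂ (F t) h)
    {μ K : ℕ} {g : ℂ → ℂ} (hg : AnalyticAt ℂ g 0) (hg0 : g 0 ≠ 0)
    (hsg : ∀ᶠ t in 𝓝 (0 : ℂ), s (F t) = t ^ μ * g t) {u : ℂ → ℂ} (hu : AnalyticAt ℂ u 0)
    (hfu : ∀ᶠ t in 𝓝 (0 : ℂ), f (F t) = t ^ K * u t) (hK : μ * D < K)
    (hsx : s (ι x).rep = 0) : ContinuousWithinAt (quo ι f s D) C x := by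
  have h0 : quo ι f s D x = 0 := by
    rw [quo, hsx, zero_pow hD.ne', div_zero]
  rw [ContinuousWithinAt, h0, ← hγ.map, tendsto_map'_iff]
  have h1 : Tendsto (fun t : ℂ => t ^ (K - μ * D) * (u t / g t ^ D)) (𝓝 0) (𝓝 0) := by
    have h2 : ContinuousAt (fun t : ℂ => t ^ (K - μ * D) * (u t / g t ^ D)) 0 :=
      (continuousAt_id.pow _).mul (hu.continuousAt.div (hg.continuousAt.pow D)
        (pow_ne_zero _ hg0))
    have h3 := h2.tendsto
    rwa [zero_pow (by omega), zero_mul] at h3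
  refine h1.congr' ?_
  filter_upwards [hF, hsg, hfu] with t h2 h3 h4
  obtain ⟨-, h5, h6⟩ := h2
  show _ = quo ι f s D (γ t)
  rw [quo_mk hf hs h6, h3, h4, mul_pow, ← pow_mul]
  by_cases ht : t = 0
  · rw [ht, zero_pow (by omega), zero_pow (by omega)]
    simp
  · have h7 : t ^ K = t ^ (μ * D) * t ^ (K - μ * D) := by
      rw [← pow_add]
      congr 1
      omega
    rw [h7, mul_assoc, mul_div_mul_left _ _ (pow_ne_zero _ ht), mul_div_assoc]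

end charts

end Pool.Agent.CF
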