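import Pool.Agent.Lib_helper58.CF.B
import Pool.Agent.Lib_helper80.SL.L.B1

/-! # Curve fibrations (MP_45e720_ag), block C: entire curves in curve sets satisfy homogeneous
relations -/

set_option autoImplicit false
set_option linter.unusedVariables false
set_option linter.unusedSectionVars false

open Filter Topology Metric Set

namespace Pool.Agent.CF

open Pool.Agent.IS Pool.Agent.BR Pool.Agent.MBS Pool.Agent.SL

section pure

variable {n : ℕ}

/-- at a single point there is a relation -/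
theorem rel_const (p q r : Fin (n + 1)) (v : Fin (n + 1) → ℂ) :
    ∃ (d : ℕ) (R : MvPolynomial (Fin 3) ℂ), R ≠ 0 ∧ R.IsHomogeneous d ∧
      MvPolynomial.eval ![v p, v q, v r] R = 0 := by
  by_cases h : v p = 0
  · exact ⟨1, MvPolynomial.X 0, MvPolynomial.X_ne_zero 0, MvPolynomial.isHomogeneous_X ℂ 0, by
      simp [h]⟩
  · refine ⟨1, MvPolynomial.C (v q) * MvPolynomial.X 0 - MvPolynomial.C (v p) * MvPolynomial.X 1,
      ?_, ?_, ?_⟩
    · intro h0
      have h1 := congrArg (MvPolynomial.eval ![0, 1, 0]) h0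
      simp at h1
      exact h h1
    · refine MvPolynomial.IsHomogeneous.sub ?_ ?_
      · simpa using (MvPolynomial.isHomogeneous_C (Fin 3) (v q)).mul
          (MvPolynomial.isHomogeneous_X ℂ (0 : Fin 3))
      · simpa using (MvPolynomial.isHomogeneous_C (Fin 3) (v p)).mul
          (MvPolynomial.isHomogeneous_X ℂ (1 : Fin 3))
    · simp
      ring

theorem hom_lin (l : (Fin (n + 1) → ℂ) →ₗ[ℂ] ℂ) : Hom 1 (fun v => l v) := by
  refine ⟨fun v => ?_, fun a v => by simp⟩
  exact (LinearMap.toContinuousLinearMap l).analyticAt v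

theorem hom_mul {D D' : ℕ} {f g : (Fin (n + 1) → ℂ) → ℂ} (hf : Hom D f) (hg : Hom D' g) :
    Hom (D + D') (fun v => f v * g v) := by
  refine ⟨fun v => (hf.an v).mul (hg.an v), fun a v => ?_⟩
  simp only [hf.smul, hg.smul, pow_add]
  ring

theorem hom_prod {κ : Type} (S : Finset κ) (l : κ → (Fin (n + 1) → ℂ) →ₗ[ℂ] ℂ) :
    Hom S.card (fun v => ∏ y ∈ S, l y v) := by
  classical
  refine ⟨fun v => ?_, fun a v => ?_⟩
  · exact Finset.analyticAt_fun_prod S fun y _ => (hom_lin (l y)).an v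
  · simp only [map_smul, smul_eq_mul]
    rw [Finset.prod_mul_distrib, Finset.prod_const]

theorem hom_form (p q r : Fin (n + 1)) (D : ℕ) (c : Fin (D + 1) × Fin (D + 1) → ℂ) :
    Hom (2 * D) (TOR.form p q r D c) := by
  refine ⟨fun v => ?_, fun a v => TOR.form_smul p q r D c a v⟩
  have h1 : ∀ j : Fin (n + 1), AnalyticAt ℂ (fun v : Fin (n + 1) → ℂ => v j) v := fun j =>
    (ContinuousLinearMap.proj (R := ℂ) (φ := fun _ : Fin (n + 1) => ℂ) j).analyticAt v
  unfold TOR.form TOR.mono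
  refine Finset.analyticAt_fun_sum _ fun a _ => ?_
  exact analyticAt_const.mul ((((h1 p).pow _).mul ((h1 q).pow _)).mul ((h1 r).pow _))

/-- separation of two points by a linear form -/
theorem exists_sep {y y' : PP n} (h : y ≠ y') :
    ∃ l : (Fin (n + 1) → ℂ) →ₗ[ℂ] ℂ, l y.rep = 0 ∧ l y'.rep ≠ 0 := by
  by_contra hno
  push Not at hno
  apply h
  have h1 : ∀ i j, y.rep i * y'.rep j = y.rep j * y'.rep i := by
    intro i j
    have h2 := hno ((y.rep i) • LinearMap.proj j - (y.rep j) • LinearMap.proj i) (by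
      simp
      ring)
    simp at h2
    linear_combination h2
  obtain ⟨i, hi⟩ : ∃ i, y.rep i ≠ 0 := by
    by_contra hno'
    push Not at hno'
    exact y.rep_nonzero (funext hno')
  obtain ⟨c, hc⟩ : ∃ c : ℂ, y'.rep = c • y.rep := by
    refine ⟨y'.rep i / y.rep i, ?_⟩
    funext j
    have := h1 i j
    rw [Pi.smul_apply, smul_eq_mul]
    field_simp
    linear_combination this
  have h4 : c ≠ 0 := by
    intro h0
    rw [h0, zero_smul] at hc
    exact y'.rep_nonzero hc
  rw [← Projectivization.mk_rep y, ← Projectivization.mk_rep y',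
    Projectivization.mk_eq_mk_iff']
  refine ⟨c⁻¹, ?_⟩
  rw [hc, smul_smul, inv_mul_cancel₀ h4, one_smul]

/-- the arithmetic of the conditions -/
theorem exists_deg (a μ s : ℕ) : ∃ D : ℕ, 0 < D ∧ a * (μ * (2 * D + s) + 1) < (D + 1) ^ 2 := by
  refine ⟨2 * a * μ + a * (μ * s + 1) + 1, by omega, ?_⟩
  set D := 2 * a * μ + a * (μ * s + 1) + 1 with hD
  have h1 : a * (μ * (2 * D + s) + 1) = (2 * a * μ) * D + a * (μ * s + 1) := by ring
  have h2 : a * (μ * s + 1) ≤ a * (μ * s + 1) * D := Nat.le_mul_of_pos_right _ (by omega)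
  have h3 : (2 * a * μ) * D + a * (μ * s + 1) * D ≤ D * D := by
    rw [← add_mul]
    exact Nat.mul_le_mul_right _ (by omega)
  nlinarith

/-- a set of complex numbers without accumulation points is countable -/
theorem countable_of_no_acc {T : Set ℂ} (h : ∀ z, ∀ᶠ w in 𝓝[≠] z, w ∉ T) : T.Countable := by
  have h1 : T = ⋃ k : ℕ, T ∩ closedBall 0 k := by
    ext z
    simp only [mem_iUnion, mem_inter_iff, mem_closedBall, dist_zero_right]
    constructor
    · intro hz
      obtain ⟨k, hk⟩ := exists_nat_ge ‖z‖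
      exact ⟨k, hz, hk⟩
    · rintro ⟨k, hz, -⟩
      exact hz
  rw [h1]
  refine countable_iUnion fun k => Set.Finite.countable ?_
  by_contra hinf
  obtain ⟨y, -, hacc⟩ := Set.Infinite.exists_accPt_of_subset_isCompact (K := closedBall 0 k) hinf
    (isCompact_closedBall 0 _) inter_subset_right
  have h2 := accPt_iff_frequently_nhdsNE.1 hacc
  exact h2 ((h y).mono fun w hw hw' => hw hw'.1)

end pure

section charts

variable {E X : Type} [NormedAddCommGroup E] [NormedSpace ℂ E] [FiniteDimensional ℂ E]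
  [MetricSpace X] [CompactSpace X] {A : Cha E X} {n : ℕ} {ι : X → PP n} {D : ℕ}
  {f s : (Fin (n + 1) → ℂ) → ℂ}

/-- a nonconstant curve takes each value on a discrete set -/
theorem value_discrete {h : ℂ → X} (hh : ∀ z, A.HolAt h z) (hne : ∃ z z', h z ≠ h z') (y : X)
    (z : ℂ) : ∀ᶠ w in 𝓝[≠] z, h w ≠ y := by
  by_contra hf
  have hf' : ∃ᶠ w in 𝓝[≠] z, h w = y := by
    rw [Filter.Frequently]
    exact hf
  have hz : h z = y := by
    by_contra hzy
    exact (hf'.filter_mono nhdsWithin_le_nhds) ((hh z).1.eventually_ne hzy)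
  obtain ⟨i, hi⟩ := A.cover (h z)
  have hs : h z ∈ (A.ch i).source := A.W_sub i (subset_closure hi)
  have h1 : ∃ᶠ w in 𝓝[≠] z, A.loc i h w = A.ch i y := hf'.mono fun w hw => by rw [Cha.loc, hw]
  have h2 := (AnalyticAt.frequently_eq_iff_eventually_eq ((hh z).2 i hs) analyticAt_const).1 h1
  have h3 : h =ᶠ[𝓝 z] fun _ => y := by
    filter_upwards [h2, (hh z).1.eventually ((A.ch i).open_source.mem_nhds hs)] with w h4 h5
    exact (A.ch i).injOn h5 (hz ▸ hs) h4
  have hcst : ∀ w, A.HolAt (fun _ => y) w := fun w =>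
    ⟨continuousAt_const, fun j _ => analyticAt_const⟩
  have h4 := hol_ident_pr (A := A) isPreconnected_univ isOpen_univ (fun w _ => hh w)
    (fun w _ => hcst w) (mem_univ z) h3
  obtain ⟨w, w', hw⟩ := hne
  exact hw ((h4 (mem_univ w)).trans (h4 (mem_univ w')).symm)

/-- identity theorem on a connected set with parametrisations -/
theorem zero_global (hι : Plift A n ι) (hs : Hom D s) {C : Set X} (hC : IsPreconnected C)
    (hpar : ∀ x ∈ C, ∃ γ, Par C x γ ∧ A.HolAt γ 0)
    (h0 : ∃ x ∈ C, ∀ᶠ x' in 𝓝[C] x, s (ι x').rep = 0) : ∀ x ∈ C, s (ι x).rep = 0 := by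
  refine conn_within hC ?_ h0
  intro x hx hf
  by_cases h2 : ∀ᶠ x' in 𝓝[C] x, s (ι x').rep = 0
  · exact h2
  · obtain ⟨γ, hγ, hh⟩ := hpar x hx
    refine zero_loc hι hs hγ hh ?_
    have h3 : ∀ᶠ x' in 𝓝[C] x, x' ∈ C := self_mem_nhdsWithin
    refine (hf.and_eventually h3).mono fun x' hx' => ?_
    exact ⟨fun h4 => h2 (h4 ▸ hx'.1), hx'.1.self_of_nhdsWithin hx'.2⟩

/-- identity theorem along an entire curve -/
theorem zero_along (hι : Plift A n ι) (hs : Hom D s) {h : ℂ → X} (hh : ∀ z, A.HolAt h z)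
    (h0 : ∃ z, ∀ᶠ z' in 𝓝 z, s (ι (h z')).rep = 0) : ∀ z, s (ι (h z)).rep = 0 := by
  refine s5_conn ?_ h0
  intro z hz
  obtain ⟨F, hF⟩ := lift_curve hι (hh z)
  have h1 : ∀ᶠ w in 𝓝 z, AnalyticAt ℂ (fun w => s (F w)) w := hF.mono fun w hw => hom_comp hs hw.1
  have h2 : ∃ᶠ w in 𝓝 z, ∀ᶠ w' in 𝓝 w, s (F w') = 0 := by
    refine (hz.and_eventually (eventually_eventually_nhds.2 hF)).mono fun w hw => ?_
    filter_upwards [hw.1, hw.2] with w' h3 h4
    obtain ⟨-, h5, h6⟩ := h4
    exact (hs.rep_zero h6).1 h3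
  filter_upwards [s5_loc h1 h2, hF] with w h3 h4
  obtain ⟨-, h5, h6⟩ := h4
  exact (hs.rep_zero h6).2 h3

/-- products without zeros -/
theorem prod_along (hι : Plift A n ι) {κ : Type} (S : Finset κ)
    (l : κ → (Fin (n + 1) → ℂ) →ₗ[ℂ] ℂ) {h : ℂ → X} (hh : ∀ z, A.HolAt h z)
    (hl : ∀ y ∈ S, ∃ z, l y (ι (h z)).rep ≠ 0) (z : ℂ) :
    ∀ᶠ w in 𝓝[≠] z, ∏ y ∈ S, l y (ι (h w)).rep ≠ 0 := by
  have h1 : ∀ y ∈ S, ∀ᶠ w in 𝓝[≠] z, l y (ι (h w)).rep ≠ 0 := by
    intro y hy
    obtain ⟨F, hF⟩ := lift_curve hι (hh z)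
    rcases (hom_comp (hom_lin (l y)) hF.self_of_nhds.1).eventually_eq_zero_or_eventually_ne_zero
      with h2 | h2
    · exfalso
      obtain ⟨w, hw⟩ := hl y hy
      refine hw (zero_along hι (hom_lin (l y)) hh ⟨z, ?_⟩ w)
      filter_upwards [h2, hF] with w h3 h4
      obtain ⟨-, h5, h6⟩ := h4
      exact ((hom_lin (l y)).rep_zero h6).2 h3
    · filter_upwards [h2, hF.filter_mono nhdsWithin_le_nhds] with w h3 h4
      obtain ⟨-, h5, h6⟩ := h4
      exact fun h7 => h3 (((hom_lin (l y)).rep_zero h6).1 h7)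
  have h2 := (Filter.eventually_all_finset S).2 h1
  filter_upwards [h2] with w hw
  exact Finset.prod_ne_zero_iff.2 hw

end charts

end Pool.Agent.CF
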