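import Pool.Agent.Lib_helper58.CF.C

/-! # Curve fibrations (MP_45e720_ag), block D: entire curves in curve sets satisfy homogeneous
relations, main lemma -/

set_option autoImplicit false
set_option linter.unusedVariables false
set_option linter.unusedSectionVars false

open Filter Topology Metric Set

namespace Pool.Agent.CF

open Pool.Agent.IS Pool.Agent.BR Pool.Agent.MBS Pool.Agent.SL

variable {E X : Type} [NormedAddCommGroup E] [NormedSpace ℂ E] [FiniteDimensional ℂ E]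
  [MetricSpace X] [CompactSpace X] {A : Cha E X} {n : ℕ} {ι : X → PP n}

/-- a form which vanishes on a connected piece of a curve set -/
theorem exists_form_zero (hι : Plift A n ι) (p q r : Fin (n + 1)) {C S : Set X} (hS : S.Finite)
    (hC : IsPreconnected C) (hcl : closure C ⊆ C ∪ S)
    (hpar : ∀ x ∈ C, ∃ γ, Par C x γ ∧ A.HolAt γ 0)
    (hnb : ∀ x ∈ C, 𝓝[closure C] x ≤ 𝓝[C] x) {y₀ : X} (hy₀ : y₀ ∈ C)
    {s : (Fin (n + 1) → ℂ) →ₗ[ℂ] ℂ} (hsS : ∀ y ∈ S, s (ι y).rep ≠ 0) (hs0 : s (ι y₀).rep ≠ 0)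
    {l : X → (Fin (n + 1) → ℂ) →ₗ[ℂ] ℂ} (hl : ∀ y ∈ S, l y (ι y).rep = 0) :
    ∃ (D : ℕ) (c : Fin (D + 1) × Fin (D + 1) → ℂ), c ≠ 0 ∧ ∀ x ∈ C,
      s (ι x).rep ≠ 0 → TOR.form p q r D c (ι x).rep * ∏ y ∈ hS.toFinset, l y (ι x).rep = 0 := by
  classical
  have hsh : Hom 1 (fun v => s v) := hom_lin s
  have hZ : IsCompact (closure C) := isClosed_closure.isCompact
  -- the zeros of `s`
  have hNfin : {x | x ∈ C ∧ s (ι x).rep = 0}.Finite := by
    refine finite_zeros hι hsh hZ subset_closure hC hpar ?_ hy₀ hs0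
    intro x hx hxC
    exact hsS x ((hcl hx).resolve_left hxC)
  set N : Set X := {x | x ∈ C ∧ s (ι x).rep = 0} with hN
  have : Fintype N := hNfin.fintype
  -- the local data at the zeros
  have hdata : ∀ x : N, ∃ (γ : ℂ → X) (F : ℂ → Fin (n + 1) → ℂ) (μ : ℕ) (g : ℂ → ℂ),
      Par C (x : X) γ ∧ A.HolAt γ 0 ∧ (∀ᶠ t in 𝓝 (0 : ℂ), AnalyticAt ℂ F t ∧
        ∃ h : F t ≠ 0, ι (γ t) = Projectivization.mk ℂ (F t) h) ∧
      AnalyticAt ℂ g 0 ∧ g 0 ≠ 0 ∧ ∀ᶠ t in 𝓝 (0 : ℂ), s (F t) = t ^ μ * g t := by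
    rintro ⟨x, hxC, hx0⟩
    obtain ⟨γ, hγ, hh⟩ := hpar x hxC
    obtain ⟨F, hF⟩ := lift_curve hι hh
    have h1 : AnalyticAt ℂ (fun t => s (F t)) 0 := hom_comp hsh hF.self_of_nhds.1
    have h2 : ¬ ∀ᶠ t in 𝓝 (0 : ℂ), s (F t) = 0 := by
      intro h3
      refine hs0 (zero_global hι hsh hC hpar ⟨x, hxC, ?_⟩ y₀ hy₀)
      rw [← hγ.map, eventually_map]
      filter_upwards [h3, hF] with t h4 h5
      obtain ⟨-, h6, h7⟩ := h5
      exact (hsh.rep_zero h7).2 h4
    obtain ⟨μ, g, h3, h4, h5⟩ := h1.exists_eventuallyEq_pow_smul_nonzero_iff.2 h2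
    refine ⟨γ, F, μ, g, hγ, hh, hF, h3, h4, ?_⟩
    filter_upwards [h5] with t ht
    rw [ht, sub_zero, smul_eq_mul]
  choose γ F μ g hγ hγh hF hg hg0 hsg using hdata
  set M : ℕ := ∑ x : N, μ x with hM
  have hMle : ∀ x, μ x ≤ M := fun x => Finset.single_le_sum (f := μ) (fun _ _ => Nat.zero_le _)
    (Finset.mem_univ x)
  set m : ℕ := hS.toFinset.card with hm
  obtain ⟨D, hD, hlt⟩ := exists_deg (Fintype.card (Option N)) M m
  set K : ℕ := M * (2 * D + m) + 1 with hK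
  -- a common radius
  obtain ⟨δ, hδ, hFd⟩ : ∃ δ > 0, ∀ x : N, DifferentiableOn ℂ (F x) (ball 0 δ) := by
    have h1 : ∀ x : N, ∀ᶠ δ : ℝ in 𝓝[>] 0, DifferentiableOn ℂ (F x) (ball 0 δ) := by
      intro x
      obtain ⟨δ, hδ, hb⟩ := Metric.eventually_nhds_iff_ball.mp (hF x)
      have h2 : ∀ᶠ δ' : ℝ in 𝓝[>] 0, δ' < δ :=
        (eventually_lt_nhds hδ).filter_mono nhdsWithin_le_nhds
      filter_upwards [h2] with δ' hδ' t ht
      exact (hb t (ball_subset_ball hδ'.le ht)).1.differentiableAt.differentiableWithinAt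
    have h2 : ∀ᶠ δ : ℝ in 𝓝[>] 0, ∀ x : N, DifferentiableOn ℂ (F x) (ball 0 δ) :=
      Filter.eventually_all.2 h1
    have h3 : ∀ᶠ δ : ℝ in 𝓝[>] 0, 0 < δ := self_mem_nhdsWithin
    obtain ⟨δ, h4, h5⟩ := (h2.and h3).exists
    exact ⟨δ, h5, h4⟩
  -- the form
  obtain ⟨c, hc0, hc⟩ := TOR.exists_form p q r D K (fun _ : Option N => (0 : ℂ)) hδ
    (fun o => o.elim (fun _ => (ι y₀).rep) F) (by
      rintro (_ | x)
      · exact differentiableOn_const _
      · exact hFd x) hlt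
  refine ⟨D, c, hc0, ?_⟩
  set f : (Fin (n + 1) → ℂ) → ℂ := fun v =>
    TOR.form p q r D c v * ∏ y ∈ hS.toFinset, l y v with hf
  have hfh : Hom (2 * D + m) f := hom_mul (hom_form p q r D c) (hom_prod hS.toFinset l)
  have hf0 : f (ι y₀).rep = 0 := by
    have h1 := hc none 0 (by omega)
    rw [iteratedDeriv_zero] at h1
    have h2 : TOR.form p q r D c (ι y₀).rep = 0 := h1
    simp only [hf, h2, zero_mul]
  have hDm : 0 < 2 * D + m := by omega
  have hw0 : ∀ x, s (ι x).rep = 0 → quo ι f s (2 * D + m) x = 0 := by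
    intro x hx
    rw [quo, hx, zero_pow hDm.ne', div_zero]
  have hwf : ∀ x, f (ι x).rep = 0 → quo ι f s (2 * D + m) x = 0 := by
    intro x hx
    rw [quo, hx, zero_div]
  have hmain := max_principle (Z := closure C) (C := C) hZ subset_closure hC
    (w := quo ι f s (2 * D + m)) ?_ ?_ hy₀ (hwf y₀ hf0)
  · intro x hx hsx
    have h1 := hmain x (subset_closure hx)
    rw [quo, div_eq_zero_iff] at h1
    exact h1.resolve_right (pow_ne_zero _ hsx)
  · -- continuity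
    intro x hx
    by_cases hsx : s (ι x).rep = 0
    · have hxC : x ∈ C := by
        by_contra hxC
        exact hsS x ((hcl hx).resolve_left hxC) hsx
      set x' : N := ⟨x, hxC, hsx⟩ with hx'
      have h1 : ∀ k < K, iteratedDeriv k (fun z => TOR.form p q r D c (F x' z)) 0 = 0 :=
        fun k hk => hc (some x') k hk
      have h2 : AnalyticAt ℂ (fun z => TOR.form p q r D c (F x' z)) 0 :=
        hom_comp (hom_form p q r D c) (hF x').self_of_nhds.1
      obtain ⟨u, hu, hfu⟩ := (natCast_le_analyticOrderAt h2).1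
        ((natCast_le_analyticOrderAt_iff_iteratedDeriv_eq_zero h2).2 h1)
      have h3 : ContinuousWithinAt (quo ι f s (2 * D + m)) C x := by
        refine quo_tendsto (F := F x') (μ := μ x') (K := K) (g := g x')
          (u := fun t => u t * ∏ y ∈ hS.toFinset, l y (F x' t)) hfh hsh hDm (hγ x') (hF x')
          (hg x') (hg0 x') (hsg x') ?_ ?_ ?_ hsx
        · exact hu.mul (hom_comp (hom_prod hS.toFinset l) (hF x').self_of_nhds.1)
        · filter_upwards [hfu] with t ht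
          rw [sub_zero, smul_eq_mul] at ht
          simp only [hf, ht]
          ring
        · have h4 : μ x' * (2 * D + m) ≤ M * (2 * D + m) := Nat.mul_le_mul_right _ (hMle x')
          omega
      exact h3.mono_left (hnb x hxC)
    · exact (quo_cont hι hfh hsh hsx).continuousWithinAt
  · -- analyticity
    intro x hx hwx
    have hsx : s (ι x).rep ≠ 0 := fun h => hwx (hw0 x h)
    have hxS : x ∉ S := by
      intro hxS
      refine hwx (hwf x ?_)
      simp only [hf]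
      rw [Finset.prod_eq_zero (hS.mem_toFinset.2 hxS) (hl x hxS), mul_zero]
    have hxC : x ∈ C := (hcl hx).resolve_right hxS
    obtain ⟨γ', h1, h2⟩ := hpar x hxC
    refine ⟨hxC, γ', h1, ?_⟩
    exact quo_an hι hfh hsh h2 (by rw [h1.zero]; exact hsx)

/-- BLOCK D: an entire curve in a curve set satisfies homogeneous relations -/
theorem rel3_curve (hι : Plift A n ι) {Z S : Set X} (hZ : IsClosed Z) (hS : S.Finite)
    (hp : ∀ x ∈ Z \ S, ∃ γ, Par Z x γ ∧ A.HolAt γ 0) {h : ℂ → X} (hh : ∀ z, A.HolAt h z)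
    (hne : ∃ z z', h z ≠ h z') (hhZ : ∀ z, h z ∈ Z) : Rel3 (fun z => ι (h z)) := by
  classical
  have hhc : Continuous h := continuous_iff_continuousAt.2 fun z => (hh z).1
  intro p q r
  by_cases hcst : ∃ y, ∀ z, ι (h z) = y
  · obtain ⟨y, hy⟩ := hcst
    obtain ⟨d, R, h1, h2, h3⟩ := rel_const p q r y.rep
    exact ⟨d, R, h1, h2, fun z => by simp only [hy z]; exact h3⟩
  push Not at hcst
  -- the points outside of `S`
  have hdisc : ∀ z, ∀ᶠ w in 𝓝[≠] z, w ∉ h ⁻¹' S := by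
    intro z
    have h1 : ∀ᶠ w in 𝓝[≠] z, ∀ y ∈ S, h w ≠ y :=
      (Filter.eventually_all_finite hS).2 fun y _ => value_discrete hh hne y z
    filter_upwards [h1] with w hw hwS
    exact hw _ hwS rfl
  have hΩ : IsPathConnected (h ⁻¹' S)ᶜ :=
    (countable_of_no_acc hdisc).isPathConnected_compl_of_one_lt_rank (by
      rw [Complex.rank_real_complex]
      exact Nat.one_lt_ofNat)
  obtain ⟨z₀, hz₀⟩ := hΩ.nonempty
  set C : Set X := connectedComponentIn (Z \ S) (h z₀) with hC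
  have himg : h '' (h ⁻¹' S)ᶜ ⊆ C := by
    refine (hΩ.isConnected.isPreconnected.image h hhc.continuousOn).subset_connectedComponentIn
      ⟨z₀, hz₀, rfl⟩ ?_
    rintro _ ⟨z, hz, rfl⟩
    exact ⟨hhZ z, hz⟩
  have hy₀ : h z₀ ∈ C := himg ⟨z₀, hz₀, rfl⟩
  obtain ⟨hcomp, hcl⟩ := component (Z := Z) (S := S) hZ hS.isClosed
    (fun x hx => (hp x hx).imp fun γ hγ => hγ.1) (x₀ := h z₀)
  have hCs : C ⊆ Z \ S := connectedComponentIn_subset _ _
  have hpar : ∀ x ∈ C, ∃ γ, Par C x γ ∧ A.HolAt γ 0 := by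
    intro x hx
    obtain ⟨γ, hγ, hγh⟩ := hp x (hCs hx)
    exact ⟨γ, hγ.of_nhds (hcomp x hx), hγh⟩
  have hnb : ∀ x ∈ C, 𝓝[closure C] x ≤ 𝓝[C] x := by
    intro x hx
    rw [hcomp x hx]
    exact nhdsWithin_mono x (closure_minimal (hCs.trans sdiff_subset) hZ)
  -- the linear forms
  have : Finite (insert (h z₀) S : Set X) := (hS.insert _).to_subtype
  obtain ⟨s, hs⟩ := Module.exists_dual_forall_apply_ne_zero (K := ℂ)
    (fun y : (insert (h z₀) S : Set X) => (ι y).rep) (fun y => (ι y).rep_nonzero)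
  have hs0 : s (ι (h z₀)).rep ≠ 0 := hs ⟨h z₀, mem_insert _ _⟩
  have hsS : ∀ y ∈ S, s (ι y).rep ≠ 0 := fun y hy => hs ⟨y, mem_insert_of_mem _ hy⟩
  have hsep : ∀ y : X, ∃ l : (Fin (n + 1) → ℂ) →ₗ[ℂ] ℂ, l (ι y).rep = 0 ∧
      ∃ z, l (ι (h z)).rep ≠ 0 := by
    intro y
    obtain ⟨z, hz⟩ := hcst (ι y)
    obtain ⟨l, h1, h2⟩ := exists_sep (Ne.symm hz)
    exact ⟨l, h1, z, h2⟩
  choose l hl hlz using hsep
  obtain ⟨D, c, hc0, hc⟩ := exists_form_zero hι p q r hS isPreconnected_connectedComponentIn hcl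
    hpar hnb hy₀ hsS hs0 (l := l) (fun y _ => hl y)
  refine ⟨2 * D, TOR.poly D c, TOR.poly_ne D hc0, TOR.poly_hom D c, ?_⟩
  intro z
  rw [TOR.eval_poly]
  -- the form vanishes near every point, off the point
  have hfh : Hom (2 * D) (TOR.form p q r D c) := hom_form p q r D c
  have h1 : ∀ᶠ w in 𝓝[≠] z, TOR.form p q r D c (ι (h w)).rep = 0 := by
    have h2 := prod_along hι hS.toFinset l hh (fun y _ => hlz y) z
    have h3 := prod_along hι {h z₀} (fun _ => s) hh (fun y _ => ⟨z₀, hs0⟩) z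
    filter_upwards [h2, h3, hdisc z] with w h4 h5 h6
    rw [Finset.prod_singleton] at h5
    exact (mul_eq_zero.1 (hc (h w) (himg ⟨w, h6, rfl⟩) h5)).resolve_right h4
  refine zero_closed hι hfh (hhc.continuousAt.frequently ?_)
  exact (h1.frequently).filter_mono nhdsWithin_le_nhds

end Pool.Agent.CF
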