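import Pool.Agent.Lib_helper58.CF.D
import Pool.Agent.Lib_helper58.CF.Notions
import Pool.Agent.Lib_helper80.IS.Main
import Pool.Agent.Lib_helper58.ND.I1

/-! # Curve fibrations (MP_45e720_ag), block E: manifolds -/

set_option autoImplicit false
set_option linter.unusedVariables false
set_option linter.unusedSectionVars false

open Filter Topology Metric Set
open scoped Manifold ContDiff

namespace Pool.Agent.CF

open Pool.Agent.IS Pool.Agent.BR Pool.Agent.MBS Pool.Agent.SL Pool.Agent.CurveFibres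

section charts

variable {E X : Type} [NormedAddCommGroup E] [NormedSpace ℂ E] [FiniteDimensional ℂ E]
  [MetricSpace X] [CompactSpace X] [ChartedSpace E X] [IsManifold 𝓘(ℂ, E) ω X]

/-- holomorphic germs in charts -/
theorem holAt_of_germ (A : Cha E X) (hA : ∀ i, ∃ y, A.ch i = chartAt E y) {γ : ℂ → X} {t₀ : ℂ}
    (h : ∀ᶠ t in 𝓝 t₀, MDifferentiableAt 𝓘(ℂ, ℂ) 𝓘(ℂ, E) γ t) : A.HolAt γ t₀ := by
  have : IsManifold 𝓘(ℂ, E) 1 X := IsManifold.of_le (n := ω) le_top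
  have : CompleteSpace E := FiniteDimensional.complete ℂ E
  have hc : ContinuousAt γ t₀ := h.self_of_nhds.continuousAt
  refine ⟨hc, fun i hi => ?_⟩
  obtain ⟨y, hy⟩ := hA i
  have h1 : ∀ᶠ t in 𝓝 t₀, DifferentiableAt ℂ (A.loc i γ) t := by
    filter_upwards [h, hc.eventually ((A.ch i).open_source.mem_nhds hi)] with t h2 h3
    have h3' : γ t ∈ (chartAt E y).source := by rw [← hy]; exact h3
    have h4 : MDifferentiableAt 𝓘(ℂ, E) 𝓘(ℂ, E) (chartAt E y) (γ t) :=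
      mdifferentiableAt_atlas (I := 𝓘(ℂ, E)) (chart_mem_atlas E y) h3'
    have h5 : MDifferentiableAt 𝓘(ℂ, ℂ) 𝓘(ℂ, E) (chartAt E y ∘ γ) t := h4.comp t h2
    rw [mdifferentiableAt_iff_differentiableAt] at h5
    have h6 : A.loc i γ = chartAt E y ∘ γ := by
      funext r
      rw [Cha.loc, hy]
      rfl
    rw [h6]
    exact h5
  obtain ⟨r, hr, hb⟩ := Metric.eventually_nhds_iff_ball.mp h1
  exact DifferentiableOn.analyticAt (s := ball t₀ r)
    (fun t ht => (hb t ht).differentiableWithinAt) (ball_mem_nhds t₀ hr)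

/-- immersions to projective spaces in charts -/
theorem pimm_of_immersion (A : Cha E X) (hA : ∀ i, ∃ y, A.ch i = chartAt E y) {n : ℕ}
    {ι : X → PP n} (hι : ∀ x, ∃ g : X → Fin (n + 1) → ℂ, SS.IsImmersiveLift E X ι g x) :
    PImm A n ι := by
  have : IsManifold 𝓘(ℂ, E) 1 X := IsManifold.of_le (n := ω) le_top
  refine ⟨fun x => ?_⟩
  obtain ⟨g, hg1, hg2, hg3⟩ := hι x
  refine ⟨g, ?_, ?_⟩
  · filter_upwards [hg2, eventually_eventually_nhds.2 hg1] with x' h1 h2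
    refine ⟨h1, fun i hi => ?_⟩
    obtain ⟨y, hy⟩ := hA i
    rw [hy] at hi ⊢
    refine z2_an ((chartAt E y).map_source hi) ?_
    rw [(chartAt E y).left_inv hi]
    exact h2
  · intro i hi ξ m hξ
    obtain ⟨y, hy⟩ := hA i
    rw [hy] at hi hξ
    set c := chartAt E y with hc
    have hct : c x ∈ c.target := c.map_source hi
    have hsymm : MDifferentiableAt 𝓘(ℂ, E) 𝓘(ℂ, E) c.symm (c x) :=
      mdifferentiableAt_atlas_symm (I := 𝓘(ℂ, E)) (chart_mem_atlas E y) hct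
    have hgx : MDifferentiableAt 𝓘(ℂ, E) 𝓘(ℂ, Fin (n + 1) → ℂ) g (c.symm (c x)) := by
      rw [c.left_inv hi]
      exact hg1.self_of_nhds
    have hcomp : mfderiv 𝓘(ℂ, E) 𝓘(ℂ, Fin (n + 1) → ℂ) (g ∘ c.symm) (c x) =
        (mfderiv 𝓘(ℂ, E) 𝓘(ℂ, Fin (n + 1) → ℂ) g (c.symm (c x))).comp
          (mfderiv 𝓘(ℂ, E) 𝓘(ℂ, E) c.symm (c x)) := mfderiv_comp (c x) hgx hsymm
    rw [mfderiv_eq_fderiv] at hcomp
    have h1 : (mfderiv 𝓘(ℂ, E) 𝓘(ℂ, Fin (n + 1) → ℂ) g (c.symm (c x)) :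
        E →L[ℂ] (Fin (n + 1) → ℂ)) ((mfderiv 𝓘(ℂ, E) 𝓘(ℂ, E) c.symm (c x) : E →L[ℂ] E) ξ) =
        m • g x := by
      rw [← hξ]
      exact (DFunLike.congr_fun hcomp ξ).symm
    have h2 : (mfderiv 𝓘(ℂ, E) 𝓘(ℂ, E) c.symm (c x) : E →L[ℂ] E) ξ = 0 := by
      refine hg3 _ m ?_
      unfold SS.dirDeriv
      have h3 : c.symm (c x) = x := c.left_inv hi
      have h4 : ∀ (x' : X) (hx' : x' = x) (u : E),
          (mfderiv 𝓘(ℂ, E) 𝓘(ℂ, Fin (n + 1) → ℂ) g x' : E →L[ℂ] (Fin (n + 1) → ℂ)) u =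
          (mfderiv 𝓘(ℂ, E) 𝓘(ℂ, Fin (n + 1) → ℂ) g x : E →L[ℂ] (Fin (n + 1) → ℂ)) u := by
        rintro x' rfl u
        rfl
      exact (h4 _ h3 _).symm.trans h1
    have h5 : (mfderiv 𝓘(ℂ, E) 𝓘(ℂ, E) c (c.symm (c x))).comp
        (mfderiv 𝓘(ℂ, E) 𝓘(ℂ, E) c.symm (c x)) =
        ContinuousLinearMap.id ℂ (TangentSpace 𝓘(ℂ, E) (c x)) :=
      (mdifferentiable_of_mem_atlas (I := 𝓘(ℂ, E)) (chart_mem_atlas E y)).comp_symm_deriv hct
    have h6 := DFunLike.congr_fun h5 ξ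
    have h7 : (mfderiv 𝓘(ℂ, E) 𝓘(ℂ, E) c (c.symm (c x)) : E →L[ℂ] E)
        ((mfderiv 𝓘(ℂ, E) 𝓘(ℂ, E) c.symm (c x) : E →L[ℂ] E) ξ) = ξ := h6
    rw [h2, map_zero] at h7
    exact h7.symm

/-- BLOCK E1: a Brody curve in a curve set is contained in a rational or elliptic curve -/
theorem curveSet_torus {n : ℕ} {ι : X → PP n}
    (hι : ∀ x, ∃ g : X → Fin (n + 1) → ℂ, SS.IsImmersiveLift E X ι g x) {Z : Set X}
    (hZ : IsCurveSet E Z) {h : ℂ → X} (hh : BrodyRigid.IsBrodyCurve (E := E) h)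
    (hne : ∃ z z', h z ≠ h z') (hhZ : ∀ z, h z ∈ Z) :
    ∃ g : ℂ → X, MDifferentiable 𝓘(ℂ, ℂ) 𝓘(ℂ, E) g ∧ BrodyRigid.DoublyPeriodic g ∧
      (∃ z z', g z ≠ g z') ∧ range h ⊆ range g := by
  obtain ⟨A, hA⟩ := exists_cha (E := E) (X := X)
  have hιP : PImm A n ι := pimm_of_immersion A hA hι
  have hhA : ∀ z, A.HolAt h z := (holAt_iff A hA h).1 hh.1
  obtain ⟨C, hC⟩ := brody_bound A hA h ((BrodyRigid.isBrodyCurve_iff h).1 hh)
  have hu : ∀ ε > 0, ∃ δ > 0, ∀ z z' : ℂ, ‖z - z'‖ < δ → dist (h z) (h z') < ε := by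
    intro ε hε
    obtain ⟨δ, hδ, hd⟩ := equicont A C ε hε
    exact ⟨δ, hδ, hd h hhA hC⟩
  obtain ⟨hZc, S, hS, hp⟩ := hZ
  have hR : Rel3 (fun z => ι (h z)) := by
    refine rel3_curve hιP.plift hZc hS ?_ hhA hne hhZ
    intro x hx
    obtain ⟨γ, h1, h2, -, h3⟩ := hp x hx
    exact ⟨γ, ⟨h1, h2.mono fun t ht => ht.continuousAt, h3⟩, holAt_of_germ A hA h2⟩
  obtain ⟨g, hg, h3, h4, h5⟩ := lemT hιP hhA hu hne hR
  exact ⟨g, (holAt_iff A hA g).2 hg, h3, h4, h5⟩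

end charts

section torus

variable {E X : Type} [NormedAddCommGroup E] [NormedSpace ℂ E] [FiniteDimensional ℂ E]
  [TopologicalSpace X] [T2Space X] [ChartedSpace E X] [IsManifold 𝓘(ℂ, E) ω X]

/-- BLOCK E2: if a curve in a fibre is contained in a doubly periodic curve, then the doubly
periodic curve is contained in the fibre -/
theorem torus_range {W : Type} [NormedAddCommGroup W] [NormedSpace ℂ W] [FiniteDimensional ℂ W]
    {Γ : Submodule ℤ W} [DiscreteTopology Γ] {φ : X → W ⧸ Γ} (hφ : StrongLang.IsTorusValued E Γ φ)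
    {g h : ℂ → X} (hg : MDifferentiable 𝓘(ℂ, ℂ) 𝓘(ℂ, E) g) (hgp : BrodyRigid.DoublyPeriodic g)
    (hh : Continuous h) (hne : ∃ z z', h z ≠ h z') (hsub : range h ⊆ range g)
    (hφh : ∀ z z', φ (h z) = φ (h z')) : ∀ z z', φ (g z) = φ (g z') := by
  have : CompleteSpace W := FiniteDimensional.complete ℂ W
  obtain ⟨Λ, _, _, hper⟩ := hgp
  obtain ⟨R, hR⟩ := x2_cover Λ
  -- infinitely many points of a disc are mapped to the fibre
  set T : Set ℂ := {t | t ∈ closedBall (0 : ℂ) R ∧ φ (g t) = φ (h 0)} with hT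
  have hinf : T.Infinite := by
    intro hfin
    have h1 : range h ⊆ g '' T := by
      rintro _ ⟨z, rfl⟩
      obtain ⟨t, ht⟩ := hsub ⟨z, rfl⟩
      obtain ⟨l, hl, hlR⟩ := hR t
      refine ⟨t + l, ⟨by simpa using hlR, ?_⟩, by rw [hper l hl, ht]⟩
      rw [hper l hl, ht]
      exact hφh z 0
    have h2 : (range h).Finite := (hfin.image g).subset h1
    have h3 : (range h).Nontrivial := by
      obtain ⟨z, z', hz⟩ := hne
      exact ⟨h z, ⟨z, rfl⟩, h z', ⟨z', rfl⟩, hz⟩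
    exact (isPreconnected_range hh).infinite_of_nontrivial h3 h2
  obtain ⟨t₀, -, hacc⟩ := hinf.exists_accPt_of_subset_isCompact (isCompact_closedBall 0 R)
    (fun t ht => ht.1)
  have hfr : ∃ᶠ t in 𝓝[≠] t₀, φ (g t) = φ (h 0) :=
    (accPt_iff_frequently_nhdsNE.1 hacc).mono fun t ht => ht.2
  refine ND.torus_identity hφ hg t₀ ?_
  -- the lift near `g t₀`
  obtain ⟨F, hF⟩ := hφ (g t₀)
  have hc : ContinuousAt g t₀ := (hg t₀).continuousAt
  have h1 := hc.eventually hF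
  obtain ⟨r, hr, hball⟩ := Metric.eventually_nhds_iff_ball.1 h1
  have hd : DifferentiableOn ℂ (fun w => F (g w)) (ball t₀ r) := by
    intro w hw
    exact (SL.z2_curve (G := F) (hg w) (hball w hw).1
      (mem_chart_source E (g w))).differentiableAt.differentiableWithinAt
  have han : AnalyticAt ℂ (fun w => F (g w)) t₀ := hd.analyticAt (ball_mem_nhds t₀ hr)
  -- the values of the lift at the points of the fibre are locally constant
  obtain ⟨w₀, hw₀⟩ := Submodule.Quotient.mk_surjective Γ (φ (h 0))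
  have hdisc : ∀ᶠ w in 𝓝 t₀, F (g w) - w₀ ∈ Γ → F (g w) = F (g t₀) := by
    obtain ⟨U, hU, h0U, hU'⟩ : ∃ U : Set W, IsOpen U ∧ (0 : W) ∈ U ∧ ∀ γ ∈ Γ, γ ∈ U → γ = 0 := by
      have h1 : IsOpen ({0} : Set Γ) := isOpen_discrete _
      obtain ⟨U, hU, hU'⟩ := isOpen_induced_iff.1 h1
      refine ⟨U, hU, ?_, fun γ hγ hγU => ?_⟩
      · have h2 : (0 : Γ) ∈ (Subtype.val ⁻¹' U : Set Γ) := by
          rw [hU']
          rfl
        exact h2
      · have h2 : (⟨γ, hγ⟩ : Γ) ∈ (Subtype.val ⁻¹' U : Set Γ) := hγU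
        rw [hU'] at h2
        exact congrArg Subtype.val h2
    have hclosed : F (g t₀) - w₀ ∈ Γ := by
      have h2 : ∃ᶠ w in 𝓝 t₀, F (g w) - w₀ ∈ (Γ : Set W) := by
        refine ((hfr.filter_mono nhdsWithin_le_nhds).and_eventually h1).mono fun w hw => ?_
        obtain ⟨h3, -, h4⟩ := hw
        rw [h3, ← hw₀] at h4
        exact (Submodule.Quotient.eq Γ).1 h4.symm
      have h3 : Tendsto (fun w => F (g w) - w₀) (𝓝 t₀) (𝓝 (F (g t₀) - w₀)) :=
        (han.continuousAt.sub continuousAt_const).tendsto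
      have h4 : IsClosed (Γ : Set W) := by
        have : DiscreteTopology Γ.toAddSubgroup := inferInstanceAs (DiscreteTopology Γ)
        exact AddSubgroup.isClosed_of_discrete (H := Γ.toAddSubgroup)
      exact h4.mem_of_frequently_of_tendsto h2 h3
    have h5 : ContinuousAt (fun w => (F (g w) - w₀) - (F (g t₀) - w₀)) t₀ :=
      (han.continuousAt.sub continuousAt_const).sub continuousAt_const
    have h6 : ∀ᶠ w in 𝓝 t₀, (F (g w) - w₀) - (F (g t₀) - w₀) ∈ U := by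
      refine h5.eventually_mem ?_
      rw [sub_self]
      exact hU.mem_nhds h0U
    filter_upwards [h6] with w h7 h8
    have h9 := hU' _ (Γ.sub_mem h8 hclosed) h7
    have h10 : F (g w) - F (g t₀) = 0 := by
      rw [← h9]
      abel
    exact sub_eq_zero.1 h10
  have h2 : ∃ᶠ w in 𝓝[≠] t₀, F (g w) = F (g t₀) := by
    refine (hfr.and_eventually ((hdisc.and h1).filter_mono nhdsWithin_le_nhds)).mono
      fun w hw => ?_
    obtain ⟨h3, h4, -, h5⟩ := hw
    refine h4 ?_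
    rw [h3, ← hw₀] at h5
    exact (Submodule.Quotient.eq Γ).1 h5.symm
  have h3 := (AnalyticAt.frequently_eq_iff_eventually_eq han analyticAt_const).1 h2
  filter_upwards [h3, h1] with w h4 h5
  rw [h5.2, h4, h1.self_of_nhds.2]

end torus

end Pool.Agent.CF
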